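import Mathlib
import Pool.Agent.H857R2.NC.All

/-!
Azagra's question for smoothness `k ≥ 2`: every infinite-dimensional Banach space with an
equivalent `C^k`-smooth norm has a `C^k`-smooth norm `p` such that `(X, p)` is not complete.
For `k = 1` the same holds if some equivalent norm is differentiable off the origin with locally
uniformly continuous derivative.
-/

set_option autoImplicit false

open Filter Topology Set

universe u

namespace Pool.Agent.Results.MP_8d41d4_an.NoncompleteSmoothNorm

variable {X : Type u} [NormedAddCommGroup X] [NormedSpace ℝ X]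

/-- The seminorm `N` is a norm on `X` equivalent to the given norm. -/
def IsEquivalentNorm (N : Seminorm ℝ X) : Prop :=
  (∃ a : ℝ, 0 < a ∧ ∀ x, a * ‖x‖ ≤ N x) ∧ ∃ b : ℝ, 0 < b ∧ ∀ x, N x ≤ b * ‖x‖

/-- `p` is a norm on the vector space `X` (not necessarily equivalent to the given one). -/
def IsNorm (p : Seminorm ℝ X) : Prop := ∀ x, p x = 0 → x = 0

/-- `p` is `C^k`-smooth: its restriction to `X \ {0}` is `C^k` for the topology of the given
norm of `X`. -/
def IsSmooth (k : ℕ∞) (p : Seminorm ℝ X) : Prop := ContDiffOn ℝ k p {x | x ≠ 0}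

/-- `(X, p)` is complete: every `p`-Cauchy sequence `p`-converges. -/
def IsCompleteFor (p : Seminorm ℝ X) : Prop :=
  ∀ v : ℕ → X, (∀ ε : ℝ, 0 < ε → ∃ M, ∀ m ≥ M, ∀ n ≥ M, p (v m - v n) < ε) →
    ∃ x, ∀ ε : ℝ, 0 < ε → ∃ M, ∀ n ≥ M, p (v n - x) < ε

/-- `N` is Frechet differentiable off the origin and every point `x ≠ 0` has a ball around it on
which the derivative `N'` is uniformly continuous. -/
def HasLocUCDeriv (N : Seminorm ℝ X) : Prop :=
  ∀ x : X, x ≠ 0 → DifferentiableAt ℝ N x ∧
    ∃ r : ℝ, 0 < r ∧ UniformContinuousOn (fderiv ℝ N) (Metric.ball x r)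

/-- Let `k` be a natural number or `∞` and let `X` be an infinite-dimensional Banach space with an equivalent
`C^k`-smooth norm. If `k ≥ 2`, or if some equivalent norm on `X` has a locally uniformly
continuous derivative off the origin, then `X` has a `C^k`-smooth norm `p` such that `(X, p)` is
not complete. -/
theorem result {X : Type u} [NormedAddCommGroup X] [NormedSpace ℝ X] [CompleteSpace X]
    (hX : ¬ FiniteDimensional ℝ X) (k : ℕ∞)
    (hN : ∃ N : Seminorm ℝ X, IsEquivalentNorm N ∧ IsSmooth k N)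
    (h : 2 ≤ k ∨ ∃ M : Seminorm ℝ X, IsEquivalentNorm M ∧ HasLocUCDeriv M) :
    ∃ p : Seminorm ℝ X, IsNorm p ∧ IsSmooth k p ∧ ¬ IsCompleteFor p := by
  obtain ⟨N, hN, hs⟩ := hN
  have hN' : H857NC.IsEquivNorm N := ⟨hN.2, hN.1⟩
  have key : H857NC.NonComplete k X := by
    rcases h with h | ⟨M, hM, hM'⟩
    · exact H857NC.part_ge_two H857NC.all k h hX N hN' hs
    · exact H857NC.part_locUC H857NC.all k hX M ⟨hM.2, hM.1⟩ (fun z hz => (hM' z hz).1)
        (fun z hz => (hM' z hz).2) N hN' hs
  obtain ⟨p, hp0, hps, v, hv1, hv2⟩ := key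
  exact ⟨p, hp0, hps, fun hc => hv2 (hc v hv1)⟩

end Pool.Agent.Results.MP_8d41d4_an.NoncompleteSmoothNorm
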