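import Mathlib
import Pool.Agent.H857R2.NC.All

/-!
Azagra's question for `k = 1`: the structure of a possible counterexample.
-/

set_option autoImplicit false

open Filter Topology Set

universe u

namespace Pool.Agent.Results.MP_8d41d4_an.StructureForKOne

variable {X : Type u} [NormedAddCommGroup X] [NormedSpace ℝ X]

/-- The seminorm `N` is a norm on `X` equivalent to the given norm. -/
def IsEquivalentNorm (N : Seminorm ℝ X) : Prop :=
  (∃ a : ℝ, 0 < a ∧ ∀ x, a * ‖x‖ ≤ N x) ∧ ∃ b : ℝ, 0 < b ∧ ∀ x, N x ≤ b * ‖x‖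

/-- `p` is a norm on the vector space `X` (not necessarily equivalent to the given one). -/
def IsNorm (p : Seminorm ℝ X) : Prop := ∀ x, p x = 0 → x = 0

/-- `p` is `C^1`-smooth: its restriction to `X \ {0}` is `C^1` for the topology of the given
norm of `X`. -/
def IsSmoothOne (p : Seminorm ℝ X) : Prop := ContDiffOn ℝ 1 p {x | x ≠ 0}

/-- `(X, p)` is complete: every `p`-Cauchy sequence `p`-converges. -/
def IsCompleteFor (p : Seminorm ℝ X) : Prop :=
  ∀ v : ℕ → X, (∀ ε : ℝ, 0 < ε → ∃ M, ∀ m ≥ M, ∀ n ≥ M, p (v m - v n) < ε) →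
    ∃ x, ∀ ε : ℝ, 0 < ε → ∃ M, ∀ n ≥ M, p (v n - x) < ε

/-- `e` is an unconditional basic sequence: nonzero vectors such that, for some constant `C`,
changing the signs of the coefficients of a finite combination multiplies its norm by at most
`C`. -/
def IsUnconditionalBasic (e : ℕ → X) : Prop :=
  (∀ n, e n ≠ 0) ∧ ∃ C : ℝ, ∀ (F : Finset ℕ) (t σ : ℕ → ℝ), (∀ n, σ n = 1 ∨ σ n = -1) →
    ‖∑ n ∈ F, (σ n * t n) • e n‖ ≤ C * ‖∑ n ∈ F, t n • e n‖

/-- The dual norm of the normed space `Y` is locally uniformly rotund. -/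
def HasLURDual (Y : Type u) [NormedAddCommGroup Y] [NormedSpace ℝ Y] : Prop :=
  ∀ (g : StrongDual ℝ Y) (gn : ℕ → StrongDual ℝ Y),
    Tendsto (fun n => 2 * ‖g‖ ^ 2 + 2 * ‖gn n‖ ^ 2 - ‖g + gn n‖ ^ 2) atTop (𝓝 0) →
    Tendsto gn atTop (𝓝 g)

/-- Let `X` be an infinite-dimensional Banach space with an equivalent `C^1`-smooth norm, such
that `(X, p)` is complete for every `C^1`-smooth norm `p` (a counterexample to Azagra's question
for `k = 1`). Then
* `X` contains no unconditional basic sequence (in particular no copy of `c_0` or `ℓ_p`);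
* every closed reflexive subspace of `X` is finite-dimensional;
* every separable complemented subspace of `X` is finite-dimensional (so `X` is not separable);
* `X` is not isomorphic to a Banach space with locally uniformly rotund dual norm;
* a continuous seminorm on `X`, Frechet differentiable where it does not vanish, with separable
  kernel, has finite-dimensional kernel;
* every continuous linear injection of `X` into a Banach space `Y` with an equivalent `C^1`-smooth
  norm is bounded below. -/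
theorem result {X : Type u} [NormedAddCommGroup X] [NormedSpace ℝ X] [CompleteSpace X]
    (hX : ¬ FiniteDimensional ℝ X)
    (hN : ∃ N : Seminorm ℝ X, IsEquivalentNorm N ∧ IsSmoothOne N)
    (hcex : ∀ p : Seminorm ℝ X, IsNorm p → IsSmoothOne p → IsCompleteFor p) :
    (∀ e : ℕ → X, ¬ IsUnconditionalBasic e) ∧
    (∀ E : Submodule ℝ X, IsClosed (E : Set X) →
      Function.Surjective (NormedSpace.inclusionInDoubleDual ℝ E) → FiniteDimensional ℝ E) ∧
    (∀ P : X →L[ℝ] X, (∀ x, P (P x) = P x) → TopologicalSpace.IsSeparable (Set.range P) →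
      FiniteDimensional ℝ (LinearMap.range (P : X →ₗ[ℝ] X))) ∧
    (∀ (Y : Type u) [NormedAddCommGroup Y] [NormedSpace ℝ Y] [CompleteSpace Y],
      HasLURDual Y → IsEmpty (X ≃L[ℝ] Y)) ∧
    (∀ M : Seminorm ℝ X, (∃ b : ℝ, ∀ x, M x ≤ b * ‖x‖) →
      (∀ x, M x ≠ 0 → DifferentiableAt ℝ M x) →
      ∀ E : Submodule ℝ X, (∀ x, x ∈ E ↔ M x = 0) → TopologicalSpace.IsSeparable (E : Set X) →
      FiniteDimensional ℝ E) ∧
    (∀ (Y : Type u) [NormedAddCommGroup Y] [NormedSpace ℝ Y] (M : Seminorm ℝ Y),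
      IsEquivalentNorm M → IsSmoothOne M → ∀ T : X →L[ℝ] Y, Function.Injective T →
      ∃ a : ℝ, 0 < a ∧ ∀ x, a * ‖x‖ ≤ ‖T x‖) := by
  obtain ⟨N, hN, hs⟩ := hN
  have hN' : H857NC.IsEquivNorm N := ⟨hN.2, hN.1⟩
  have hno : ¬ H857NC.NonComplete 1 X := by
    rintro ⟨p, hp0, hps, v, hv1, hv2⟩
    exact hv2 (hcex p hp0 hps v hv1)
  refine ⟨?_, ?_, ?_, ?_, ?_, ?_⟩
  · rintro e ⟨he0, C, heC⟩
    exact hno (H857NC.part_unc N hN' hs e C ⟨he0, heC⟩)
  · intro E hEc hEr
    by_contra hEi
    exact hno (H857NC.part_reflexive H857NC.all N hN' hs E hEc hEi hEr)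
  · intro P hP hsep
    by_contra hPi
    exact hno (H857NC.part_proj H857NC.all 1 N hN' hs ⟨P, hP, hsep, hPi⟩)
  · intro Y _ _ _ hY
    refine ⟨fun e => hno (H857NC.part_lur H857NC.all hX Y e hY)⟩
  · intro M hMb hMd E hE hsep
    by_contra hEi
    obtain ⟨f, v, hf, htot, hv, hfv⟩ := H857NC.all.tot X E hsep hEi
    exact hno (H857NC.nonComplete_one H857NC.all.nc H857NC.all.cd1
      (H857NC.all.quo X M hMb hMd f v hf (fun x hx => htot x ((hE x).2 hx))
        (fun n => ⟨(hE _).1 (hv n).1, (hv n).2⟩) hfv))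
  · intro Y _ _ M hM hMs T hT
    by_contra hcon
    push Not at hcon
    obtain ⟨⟨a, ha, hlow⟩, b, hb, hup⟩ := hM
    have h0 : ∀ x, T x = 0 → x = 0 := fun x h => hT (by rw [h, map_zero])
    have hM0 : ∀ y, M y = 0 → y = 0 := by
      intro y hy
      have h1 := hlow y
      rw [hy] at h1
      have h2 : ‖y‖ ≤ 0 := by
        by_contra hc
        push Not at hc
        have := mul_pos ha hc
        linarith
      exact norm_le_zero_iff.1 h2
    apply hno
    refine ⟨M.comp (T : X →ₗ[ℝ] Y), fun x hx => h0 x (hM0 _ hx), ?_, ?_⟩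
    · have : (⇑(M.comp (T : X →ₗ[ℝ] Y))) = M ∘ T := rfl
      rw [this]
      refine ContDiffOn.comp hMs T.contDiff.contDiffOn ?_
      intro x hx
      exact fun h => hx (h0 x h)
    · refine H857NC.all.nc X _ (fun x hx => h0 x (hM0 _ hx)) ⟨b * ‖T‖, fun x => ?_⟩ fun a ha => ?_
      · calc M (T x) ≤ b * ‖T x‖ := hup _
          _ ≤ b * (‖T‖ * ‖x‖) := by gcongr; exact T.le_opNorm x
          _ = b * ‖T‖ * ‖x‖ := by ring
      · obtain ⟨x, hx⟩ := hcon (a / b) (by positivity)
        refine ⟨x, ?_⟩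
        calc M (T x) ≤ b * ‖T x‖ := hup _
          _ < b * (a / b * ‖x‖) := by gcongr
          _ = a * ‖x‖ := by field_simp

end Pool.Agent.Results.MP_8d41d4_an.StructureForKOne
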